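import Pool.Agent.Y281.PiBase

set_option autoImplicit false

/-!
# The key approximation: coordinate neighbourhoods inside weak neighbourhoods
-/

namespace Pool.Agent.Y281.PiBase

open Filter Topology Pool.Agent.Y281.UB

variable {X : Type*} [NormedAddCommGroup X] [NormedSpace ℝ X] {e : ℕ → X}

variable (G : Finset (X →L[ℝ] ℝ))

/-- Two far out almost maximal admissible vectors on which the functionals almost agree. -/
theorem exists_pair (hU : SignInv e) (w : ℕ →₀ ℝ) (hw : ‖T e w‖ ≤ 1) {ε : ℝ} (hε : 0 < ε) :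
    ∃ (s : ℝ) (N₀ : ℕ) (v₁ v₂ : ℕ →₀ ℝ), 0 ≤ s ∧ s ≤ (∑ g ∈ G, ‖g‖) * 2 ∧
      (∀ v ∈ Adm e w N₀, Γ e G v ≤ s + ε) ∧
      (∀ n ∈ v₁.support, N₀ ≤ n) ∧ (∀ n ∈ v₂.support, N₀ ≤ n) ∧
      (∀ n, v₂ n ≠ 0 → w n = 0 ∧ v₁ n = 0) ∧ (∀ n, v₁ n ≠ 0 → w n = 0) ∧
      ‖T e (w + v₁)‖ ≤ 1 ∧ ‖T e (w + v₂)‖ ≤ 1 ∧ s - ε ≤ Γ e G v₁ ∧ s - ε ≤ Γ e G v₂ ∧
      ∀ g ∈ G, |g (T e v₁) - g (T e v₂)| ≤ ε := by
  classical
  obtain ⟨s, N₀, hs0, hsC, h1, h2⟩ := exists_sat G hU w hw hε
  choose V hV hVs using h2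
  set C : ℝ := (∑ g ∈ G, ‖g‖) * 2 with hC
  have hC0 : 0 ≤ C := by rw [hC]; positivity
  let φ : ℕ → (G → ℝ) := fun N g => g.1 (T e (V N))
  have hφ : ∀ N, φ N ∈ Metric.closedBall (0 : G → ℝ) C := by
    intro N
    rw [mem_closedBall_zero_iff, pi_norm_le_iff_of_nonneg hC0]
    intro g
    rw [Real.norm_eq_abs]
    exact (abs_apply_le_Γ G g.2 (V N)).trans (Γ_bdd G hU w hw N _ (hV N))
  obtain ⟨z, _, ψ, hψ, hlim⟩ := tendsto_subseq_of_bounded Metric.isBounded_closedBall hφ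
  have hev := (Metric.tendsto_atTop.1 hlim) (ε / 2) (by positivity)
  obtain ⟨k₀, hk₀⟩ := hev
  let k₁ := max k₀ (max N₀ (w.support.sup id + 1))
  let N₁ := ψ k₁
  let k₂ := max k₁ ((V N₁).support.sup id + 1)
  let N₂ := ψ k₂
  have hN₁ : N₀ ≤ N₁ := ((le_max_left _ _).trans (le_max_right _ _)).trans (hψ.le_apply)
  have hN₁w : w.support.sup id + 1 ≤ N₁ :=
    ((le_max_right _ _).trans (le_max_right _ _)).trans (hψ.le_apply)
  have hN₂ : (V N₁).support.sup id + 1 ≤ N₂ := (le_max_right _ _).trans (hψ.le_apply)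
  have hN₁₂ : N₁ ≤ N₂ := hψ.monotone (le_max_left _ _)
  have hwz : ∀ n, N₁ ≤ n → w n = 0 := by
    intro n hn
    by_contra h
    have : n ≤ w.support.sup id := Finset.le_sup (f := id) (Finsupp.mem_support_iff.2 h)
    omega
  refine ⟨s, N₀, V N₁, V N₂, hs0, hsC, h1, ?_, ?_, ?_, ?_, (hV _).2, (hV _).2, hVs _, hVs _, ?_⟩
  · exact fun n hn => hN₁.trans ((hV N₁).1 n hn)
  · exact fun n hn => (hN₁.trans hN₁₂).trans ((hV N₂).1 n hn)
  · intro n hn
    have hn2 : N₂ ≤ n := (hV N₂).1 n (Finsupp.mem_support_iff.2 hn)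
    refine ⟨hwz n (hN₁₂.trans hn2), ?_⟩
    by_contra h
    have : n ≤ (V N₁).support.sup id := Finset.le_sup (f := id) (Finsupp.mem_support_iff.2 h)
    omega
  · intro n hn
    exact hwz n ((hV N₁).1 n (Finsupp.mem_support_iff.2 hn))
  · intro g hg
    have ha := hk₀ k₁ (le_max_left _ _)
    have hb := hk₀ k₂ ((le_max_left _ _).trans (le_max_left _ _))
    have h3 : dist (φ N₁) (φ N₂) < ε := by
      calc dist (φ N₁) (φ N₂) ≤ dist (φ N₁) z + dist (φ N₂) z := dist_triangle_right _ _ _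
        _ < ε / 2 + ε / 2 := add_lt_add ha hb
        _ = ε := by ring
    have h4 := (dist_le_pi_dist (φ N₁) (φ N₂) ⟨g, hg⟩).trans h3.le
    rwa [Real.dist_eq] at h4

theorem num1 {s C ε δ κ : ℝ} (hsC : s ≤ C) (h0 : 0 ≤ δ / κ)
    (h : δ / κ * (C + 2 * ε + 1) ≤ ε) : s + ε ≤ (1 - δ / κ) * (s + 2 * ε) := by
  have h1 : δ / κ * (s + 2 * ε) ≤ δ / κ * (C + 2 * ε + 1) :=
    mul_le_mul_of_nonneg_left (by linarith) h0
  linarith [h1, h]

theorem num2 {C ε r : ℝ} (hC : 0 ≤ C) (hε : 0 < ε) (h0 : 0 < r)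
    (h : r * (C + 2 * ε + 1) ≤ ε) : 0 < 1 - r := by
  have h1 : r * (2 * ε) ≤ ε := by
    refine le_trans (mul_le_mul_of_nonneg_left ?_ h0.le) h
    linarith
  have h2 : r ≤ 1 / 2 := by
    by_contra h3
    have h4 : 1 / 2 < r := not_le.1 h3
    have h5 : 1 / 2 * (2 * ε) < r * (2 * ε) := mul_lt_mul_of_pos_right h4 (by positivity)
    linarith
  linarith

theorem num3 {δ κ : ℝ} (hκ : 0 < κ) (hδ : 0 < δ) :
    (1 - δ / κ) * (1 + δ) + (1 - (1 - δ / κ)) * (1 - κ) ≤ 1 := by
  have h2 : δ / κ * κ = δ := by field_simp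
  have h3 : 0 ≤ δ / κ * δ := by positivity
  nlinarith

theorem num4 {g δ C ε : ℝ} (hgC : g ≤ C) (hδ0 : 0 < δ) (hδ2 : δ * (C + 1) ≤ ε) :
    g * δ + 3 * ε ≤ ε + 3 * ε := by
  have : g * δ ≤ C * δ := mul_le_mul_of_nonneg_right hgC hδ0.le
  linarith

theorem key (hB : ∀ x : X, ∃! a : ℕ → ℝ, HasSum (fun n => a n • e n) x) (hU : SignInv e)
    (w : ℕ →₀ ℝ) {κ : ℝ} (hκ : 0 < κ) (hκ1 : κ ≤ 1) (hw : ‖T e w‖ ≤ 1 - κ) {ε : ℝ}
    (hε : 0 < ε) :
    ∃ w' : ℕ →₀ ℝ, ‖T e w'‖ ≤ 1 ∧ (∀ g ∈ G, |g (T e w') - g (T e w)| ≤ ε) ∧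
      ∃ (N : ℕ) (η : ℝ), 0 < η ∧ ∀ y : X, ‖y‖ ≤ 1 → (∀ n < N, |A hB y n - w' n| < η) →
        ∀ g ∈ G, |g y - g (T e w')| ≤ ε := by
  classical
  set ε' : ℝ := ε / 8 with hε'
  have hε'0 : 0 < ε' := by positivity
  obtain ⟨s, N₀, v₁, v₂, hs0, hsC, hsat, hv₁, hv₂, hd₂, hd₁, hn₁, hn₂, hg₁, hg₂, hg⟩ :=
    exists_pair G hU w (hw.trans (by linarith)) hε'0
  set C : ℝ := (∑ g ∈ G, ‖g‖) * 2 with hC
  have hC0 : 0 ≤ C := by rw [hC]; positivity
  set v' : ℕ →₀ ℝ := (1 / 2 : ℝ) • (v₁ - v₂) with hv'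
  set w' : ℕ →₀ ℝ := w + v' with hw'
  have hv'n : ∀ n, v' n = (v₁ n - v₂ n) / 2 := by
    intro n; simp [hv']; ring
  have hnorm : ‖T e w'‖ ≤ 1 := by
    have h1 : ‖T e w'‖ = ‖T e (w + (1 / 2 : ℝ) • (v₁ + v₂))‖ := by
      apply norm_T_eq_of_abs_eq hU
      intro n
      by_cases h2 : v₂ n = 0
      · simp [hw', hv', h2]
      · obtain ⟨h3, h4⟩ := hd₂ n h2
        simp [hw', hv', h3, h4]
    have h2 : T e (w + (1 / 2 : ℝ) • (v₁ + v₂)) =
        (1 / 2 : ℝ) • (T e (w + v₁) + T e (w + v₂)) := by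
      simp only [map_add, map_smul]
      module
    rw [h1, h2, norm_smul, Real.norm_eq_abs, abs_of_pos (by norm_num : (0 : ℝ) < 1 / 2)]
    have := norm_add_le (T e (w + v₁)) (T e (w + v₂))
    linarith
  have hv'0 : ∀ n ∈ v'.support, N₀ ≤ n := by
    intro n hn
    by_contra hlt
    have h1 : v₁ n = 0 := by
      by_contra h; exact hlt (hv₁ n (Finsupp.mem_support_iff.2 h))
    have h2 : v₂ n = 0 := by
      by_contra h; exact hlt (hv₂ n (Finsupp.mem_support_iff.2 h))
    rw [Finsupp.mem_support_iff, hv'n, h1, h2] at hn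
    simp at hn
  have hΓv' : s - ε' ≤ Γ e G v' := by
    have h1 : Γ e G v' = 1 / 2 * (Γ e G v₁ + Γ e G v₂) := by
      rw [hv', Γ_smul, sub_eq_add_neg, Γ_add]
      · have : Γ e G (-v₂) = Γ e G v₂ := by
          have := Γ_smul (e := e) G (-1) v₂
          simpa using this
        rw [this, abs_of_pos (by norm_num : (0 : ℝ) < 1 / 2)]
      · rw [Finset.disjoint_left]
        intro n h1 h2
        rw [Finsupp.mem_support_iff] at h1 h2
        exact h1 (hd₂ n (by simpa using h2)).2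
    rw [h1]; linarith
  set N : ℕ := max N₀ (max (w'.support.sup id + 1) (v'.support.sup id + 1)) with hN
  set δ : ℝ := min (κ * ε' / (C + 2 * ε' + 1)) (ε' / (C + 1)) with hδ
  have hδ0 : 0 < δ := lt_min (by positivity) (by positivity)
  have hδ1 : δ * (C + 2 * ε' + 1) ≤ κ * ε' := by
    have : δ ≤ κ * ε' / (C + 2 * ε' + 1) := min_le_left _ _
    rwa [le_div_iff₀ (by positivity)] at this
  have hδ2 : δ * (C + 1) ≤ ε' := by
    have : δ ≤ ε' / (C + 1) := min_le_right _ _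
    rwa [le_div_iff₀ (by positivity)] at this
  set E : ℝ := ∑ n ∈ Finset.range N, ‖e n‖ + 1 with hE
  have hE0 : 0 < E := by positivity
  refine ⟨w', hnorm, ?_, N, δ / E, by positivity, ?_⟩
  · intro g hg'
    have h1 : g (T e w') - g (T e w) = (g (T e v₁) - g (T e v₂)) / 2 := by
      rw [hw', hv']
      simp only [map_add, map_smul, map_sub, smul_eq_mul]
      ring
    rw [h1, abs_div, abs_of_pos (by norm_num : (0 : ℝ) < 2)]
    have := hg g hg'
    linarith
  · intro y hy hyn g hg'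
    have hgC : ‖g‖ ≤ C := by
      have h1 : ‖g‖ ≤ ∑ g ∈ G, ‖g‖ :=
        Finset.single_le_sum (f := fun g : X →L[ℝ] ℝ => ‖g‖) (fun _ _ => norm_nonneg _) hg'
      have h2 : 0 ≤ ∑ g ∈ G, ‖g‖ := by positivity
      rw [hC]; linarith
    have hlim : Tendsto (fun M : ℕ => |g (T e (tr hB (Finset.range M) y)) - g (T e w')|) atTop
        (𝓝 |g y - g (T e w')|) := by
      have h1 := (tendsto_T_tr hB y).comp tendsto_finset_range
      have h2 := (g.continuous.tendsto y).comp h1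
      exact (h2.sub_const _).abs
    refine le_of_tendsto hlim ?_
    filter_upwards [eventually_ge_atTop N] with M hM
    set u := tr hB (Finset.range N) y with hu
    set t := tr hB (Finset.Ico N M) y with ht
    have hut : tr hB (Finset.range M) y = u + t := by
      ext n
      rw [Finsupp.add_apply, hu, ht, tr_apply, tr_apply, tr_apply]
      simp only [Finset.mem_range, Finset.mem_Ico]
      by_cases h1 : n < N
      · have h2 : n < M := by omega
        simp [h1, h2]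
      · by_cases h2 : n < M
        · have h3 : N ≤ n ∧ n < M := by omega
          simp [h1, h2, h3]
        · simp [h1, h2]
    have hw's : w'.support ⊆ Finset.range N := by
      intro n hn
      have h1 : n ≤ w'.support.sup id := Finset.le_sup (f := id) hn
      rw [Finset.mem_range]
      have h2 : w'.support.sup id + 1 ≤ N := by
        rw [hN]; exact le_trans (le_max_left _ _) (le_max_right N₀ _)
      omega
    have hdist : ‖T e u - T e w'‖ ≤ δ := by
      rw [hu, T_tr, T_apply_of_subset e w' _ hw's, ← Finset.sum_sub_distrib]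
      calc ‖∑ n ∈ Finset.range N, (A hB y n • e n - w' n • e n)‖
          ≤ ∑ n ∈ Finset.range N, ‖A hB y n • e n - w' n • e n‖ := norm_sum_le _ _
        _ ≤ ∑ n ∈ Finset.range N, δ / E * ‖e n‖ := by
            refine Finset.sum_le_sum fun n hn => ?_
            rw [← sub_smul, norm_smul, Real.norm_eq_abs]
            exact mul_le_mul_of_nonneg_right (hyn n (Finset.mem_range.1 hn)).le (norm_nonneg _)
        _ = δ / E * ∑ n ∈ Finset.range N, ‖e n‖ := by rw [Finset.mul_sum]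
        _ ≤ δ / E * E := by
            refine mul_le_mul_of_nonneg_left ?_ (by positivity)
            rw [hE]; linarith
        _ = δ := by field_simp
    have hzt : ‖T e (u + t)‖ ≤ 1 := by
      rw [← hut]
      exact (norm_T_tr_le hB hU _ y).trans hy
    have hw't : ‖T e (w' + t)‖ ≤ 1 + δ := by
      have h1 : T e (w' + t) = T e (u + t) - (T e u - T e w') := by
        simp only [map_add]; abel
      rw [h1]
      exact (norm_sub_le _ _).trans (add_le_add hzt hdist)
    -- the scaled vector is admissible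
    set μ : ℝ := 1 - δ / κ with hμ
    have hδκ : δ / κ * (C + 2 * ε' + 1) ≤ ε' := by
      rw [div_mul_eq_mul_div, div_le_iff₀ hκ]
      linarith
    have hδκ0 : 0 < δ / κ := by positivity
    have hμ0 : 0 < μ := num2 hC0 hε'0 hδκ0 hδκ
    have hμ1 : μ ≤ 1 := by rw [hμ]; linarith
    have hadm : μ • (v' + t) ∈ Adm e w N₀ := by
      constructor
      · intro n hn
        have h1 := Finsupp.support_smul hn
        rcases Finset.mem_union.1 (Finsupp.support_add h1) with h2 | h2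
        · exact hv'0 n h2
        · have h3 : n ∈ Finset.Ico N M := Finsupp.support_onFinset_subset h2
          have h4 : N₀ ≤ N := le_max_left _ _
          exact h4.trans (Finset.mem_Ico.1 h3).1
      · have h1 : T e (w + μ • (v' + t)) = μ • T e (w' + t) + (1 - μ) • T e w := by
          rw [hw']
          simp only [map_add, map_smul]
          module
        rw [h1]
        calc ‖μ • T e (w' + t) + (1 - μ) • T e w‖
            ≤ ‖μ • T e (w' + t)‖ + ‖(1 - μ) • T e w‖ := norm_add_le _ _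
          _ = μ * ‖T e (w' + t)‖ + (1 - μ) * ‖T e w‖ := by
              rw [norm_smul, norm_smul, Real.norm_eq_abs, Real.norm_eq_abs,
                abs_of_pos hμ0, abs_of_nonneg (by linarith : 0 ≤ 1 - μ)]
          _ ≤ μ * (1 + δ) + (1 - μ) * (1 - κ) :=
              add_le_add (mul_le_mul_of_nonneg_left hw't hμ0.le)
                (mul_le_mul_of_nonneg_left hw (by linarith))
          _ ≤ 1 := num3 hκ hδ0
    have hsat' := hsat _ hadm
    rw [Γ_smul, abs_of_pos hμ0, Γ_add] at hsat'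
    · have hΓt : Γ e G t ≤ 3 * ε' := by
        have h1 : Γ e G v' + Γ e G t ≤ s + 2 * ε' := by
          have h2 : s + ε' ≤ μ * (s + 2 * ε') := num1 hsC hδκ0.le hδκ
          have h3 : μ * (Γ e G v' + Γ e G t) ≤ μ * (s + 2 * ε') := hsat'.trans h2
          exact le_of_mul_le_mul_left h3 hμ0
        linarith
      have h1 : g (T e (tr hB (Finset.range M) y)) - g (T e w') =
          g (T e u - T e w') + g (T e t) := by
        rw [hut]
        simp only [map_add, map_sub]; ring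
      rw [h1]
      calc |g (T e u - T e w') + g (T e t)| ≤ |g (T e u - T e w')| + |g (T e t)| := abs_add_le _ _
        _ ≤ ‖g‖ * δ + 3 * ε' := by
            refine add_le_add ?_ ((abs_apply_le_Γ G hg' t).trans hΓt)
            exact (g.le_opNorm _).trans (mul_le_mul_of_nonneg_left hdist (norm_nonneg _))
        _ ≤ ε' + 3 * ε' := num4 hgC hδ0 hδ2
        _ ≤ ε := by rw [hε']; linarith
    · rw [Finset.disjoint_left]
      intro n h1 h2
      have h3 : n ∈ Finset.Ico N M := Finsupp.support_onFinset_subset h2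
      have h4 : n ≤ v'.support.sup id := Finset.le_sup (f := id) h1
      have h5 : v'.support.sup id + 1 ≤ N := by
        rw [hN]; exact le_trans (le_max_right _ _) (le_max_right N₀ _)
      have := (Finset.mem_Ico.1 h3).1
      omega

end Pool.Agent.Y281.PiBase
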