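import Pool.Agent.Y281.UB

set_option autoImplicit false

/-!
# Saturated finitely supported vectors in the unit ball
-/

namespace Pool.Agent.Y281.PiBase

open Filter Topology Pool.Agent.Y281.UB

variable {X : Type*} [NormedAddCommGroup X] [NormedSpace ℝ X] {e : ℕ → X}

/-- The modulus functional of the sum of finitely many functionals. -/
noncomputable def Γ (e : ℕ → X) (G : Finset (X →L[ℝ] ℝ)) (c : ℕ →₀ ℝ) : ℝ :=
  c.sum fun n r => (∑ g ∈ G, |g (e n)|) * |r|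

variable (G : Finset (X →L[ℝ] ℝ))

theorem Γ_nonneg (c : ℕ →₀ ℝ) : 0 ≤ Γ e G c := by
  unfold Γ Finsupp.sum
  positivity

theorem Γ_eq_sum (c : ℕ →₀ ℝ) : Γ e G c = ∑ g ∈ G, ∑ n ∈ c.support, |g (e n)| * |c n| := by
  unfold Γ Finsupp.sum
  simp only [Finset.sum_mul]
  rw [Finset.sum_comm]

theorem Γ_add {c d : ℕ →₀ ℝ} (h : Disjoint c.support d.support) :
    Γ e G (c + d) = Γ e G c + Γ e G d := by
  unfold Γ
  exact Finsupp.sum_add_index_of_disjoint h _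

theorem Γ_smul (r : ℝ) (c : ℕ →₀ ℝ) : Γ e G (r • c) = |r| * Γ e G c := by
  unfold Γ
  rw [Finsupp.sum_smul_index']
  · rw [Finsupp.mul_sum]
    refine Finsupp.sum_congr fun n _ => ?_
    rw [smul_eq_mul, abs_mul]; ring
  · intro n; simp

theorem abs_apply_le_Γ {g : X →L[ℝ] ℝ} (hg : g ∈ G) (c : ℕ →₀ ℝ) :
    |g (T e c)| ≤ Γ e G c := by
  rw [T_apply, map_sum, Γ_eq_sum]
  calc |∑ n ∈ c.support, g (c n • e n)| ≤ ∑ n ∈ c.support, |g (c n • e n)| :=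
        Finset.abs_sum_le_sum_abs _ _
    _ = ∑ n ∈ c.support, |g (e n)| * |c n| := by
        refine Finset.sum_congr rfl fun n _ => ?_
        rw [map_smul, smul_eq_mul, abs_mul, mul_comm]
    _ ≤ _ := Finset.single_le_sum
        (f := fun g : X →L[ℝ] ℝ => ∑ n ∈ c.support, |g (e n)| * |c n|)
        (fun _ _ => by positivity) hg

theorem Γ_le (hU : SignInv e) (c : ℕ →₀ ℝ) : Γ e G c ≤ (∑ g ∈ G, ‖g‖) * ‖T e c‖ := by
  classical
  rw [Γ_eq_sum, Finset.sum_mul]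
  refine Finset.sum_le_sum fun g _ => ?_
  let d : ℕ →₀ ℝ := Finsupp.onFinset c.support
    (fun n => if 0 ≤ g (e n) * c n then c n else - c n) (by
      intro n hn
      rw [Finsupp.mem_support_iff]
      rintro h
      simp [h] at hn)
  have hd : ∀ n, d n = if 0 ≤ g (e n) * c n then c n else - c n := fun n => rfl
  have habs : ∀ n, |d n| = |c n| := by
    intro n
    rw [hd]
    split_ifs <;> simp
  have h1 : ∑ n ∈ c.support, |g (e n)| * |c n| = g (T e d) := by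
    rw [T_apply_of_subset e d c.support Finsupp.support_onFinset_subset, map_sum]
    refine Finset.sum_congr rfl fun n _ => ?_
    rw [map_smul, smul_eq_mul, ← abs_mul, hd]
    split_ifs with h
    · rw [abs_of_nonneg h, mul_comm]
    · rw [abs_of_neg (not_le.1 h)]; ring
  rw [h1]
  calc g (T e d) ≤ |g (T e d)| := le_abs_self _
    _ ≤ ‖g‖ * ‖T e d‖ := g.le_opNorm _
    _ = ‖g‖ * ‖T e c‖ := by rw [norm_T_eq_of_abs_eq hU habs]

/-- The vectors with support in `[N, ∞)` which can be added to `w` inside the unit ball. -/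
def Adm (e : ℕ → X) (w : ℕ →₀ ℝ) (N : ℕ) : Set (ℕ →₀ ℝ) :=
  {v | (∀ n ∈ v.support, N ≤ n) ∧ ‖T e (w + v)‖ ≤ 1}

theorem Γ_bdd (hU : SignInv e) (w : ℕ →₀ ℝ) (hw : ‖T e w‖ ≤ 1) (N : ℕ) :
    ∀ v ∈ Adm e w N, Γ e G v ≤ (∑ g ∈ G, ‖g‖) * 2 := by
  intro v hv
  refine (Γ_le G hU v).trans ?_
  refine mul_le_mul_of_nonneg_left ?_ (Finset.sum_nonneg fun _ _ => norm_nonneg _)
  have h1 : T e v = T e (w + v) - T e w := by rw [map_add]; abel
  rw [h1]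
  exact (norm_sub_le _ _).trans (by linarith [hv.2])

/-- The asymptotic supremum. -/
theorem exists_sat (hU : SignInv e) (w : ℕ →₀ ℝ) (hw : ‖T e w‖ ≤ 1) {ε : ℝ} (hε : 0 < ε) :
    ∃ (s : ℝ) (N₀ : ℕ), 0 ≤ s ∧ s ≤ (∑ g ∈ G, ‖g‖) * 2 ∧
      (∀ v ∈ Adm e w N₀, Γ e G v ≤ s + ε) ∧ ∀ N, ∃ v ∈ Adm e w N, s - ε ≤ Γ e G v := by
  have hne : ∀ N, (Γ e G '' Adm e w N).Nonempty := fun N =>
    ⟨_, 0, ⟨by simp, by simpa using hw⟩, rfl⟩
  have hbd : ∀ N, BddAbove (Γ e G '' Adm e w N) := fun N =>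
    ⟨(∑ g ∈ G, ‖g‖) * 2, by rintro _ ⟨v, hv, rfl⟩; exact Γ_bdd G hU w hw N v hv⟩
  let S : ℕ → ℝ := fun N => sSup (Γ e G '' Adm e w N)
  have hS0 : ∀ N, 0 ≤ S N := by
    intro N
    obtain ⟨_, v, hv, rfl⟩ := hne N
    exact (Γ_nonneg G v).trans (le_csSup (hbd N) ⟨v, hv, rfl⟩)
  have hbd2 : BddBelow (Set.range S) := ⟨0, by rintro _ ⟨N, rfl⟩; exact hS0 N⟩
  refine ⟨⨅ N, S N, ?_⟩
  obtain ⟨N₀, hN₀⟩ := exists_lt_of_ciInf_lt (show (⨅ N, S N) < (⨅ N, S N) + ε by linarith)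
  refine ⟨N₀, le_ciInf hS0, ?_, ?_, ?_⟩
  · refine (ciInf_le hbd2 0).trans (csSup_le (hne 0) ?_)
    rintro _ ⟨v, hv, rfl⟩
    exact Γ_bdd G hU w hw 0 v hv
  · intro v hv
    exact (le_csSup (hbd N₀) ⟨v, hv, rfl⟩).trans hN₀.le
  · intro N
    have h1 : (⨅ N, S N) - ε < S N := by
      have := ciInf_le hbd2 N
      linarith
    obtain ⟨_, ⟨v, hv, rfl⟩, h2⟩ := exists_lt_of_lt_csSup (hne N) h1
    exact ⟨v, hv, h2.le⟩

end Pool.Agent.Y281.PiBase
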