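import Pool.Agent.Y281.UB

set_option autoImplicit false

/-!
# No space with a 1-unconditional basis has the super alternative Daugavet property
-/

namespace Pool.Agent.Y281.SADP

open Filter Topology Pool.Agent.Y281.UB

universe u

variable {X : Type u} [NormedAddCommGroup X] [NormedSpace ℝ X] {e : ℕ → X}

/-- A Schauder basis with the sign property has unconditionally convergent expansions. -/
theorem hasSum_of_tendsto (hU : SignInv e) {a : ℕ → ℝ} {x : X}
    (h : Tendsto (fun n => ∑ i ∈ Finset.range n, a i • e i) atTop (𝓝 x)) :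
    HasSum (fun n => a n • e n) x := by
  classical
  rw [HasSum]
  simp only [SummationFilter.unconditional_filter]
  rw [Metric.tendsto_atTop]
  intro ε hε
  have hc := (Metric.cauchySeq_iff'.1 h.cauchySeq) (ε / 2) (by positivity)
  obtain ⟨N₁, hN₁⟩ := hc
  obtain ⟨N₂, hN₂⟩ := (Metric.tendsto_atTop.1 h) (ε / 2) (by positivity)
  -- a common index with small Cauchy tails
  obtain ⟨N₃, hN₃⟩ := (Metric.cauchySeq_iff.1 h.cauchySeq) (ε / 2) (by positivity)
  set N := max N₂ N₃ with hN
  refine ⟨Finset.range N, fun s hs => ?_⟩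
  have hs' : Finset.range N ⊆ s := hs
  set M := max N (s.sup id + 1) with hM
  have hsM : s ⊆ Finset.range M := by
    intro n hn
    have h1 : n ≤ s.sup id := Finset.le_sup (f := id) hn
    rw [Finset.mem_range, hM]
    exact lt_of_lt_of_le (Nat.lt_succ_of_le h1) (le_max_right _ _)
  have h1 : ‖∑ i ∈ s \ Finset.range N, a i • e i‖ ≤ ‖∑ i ∈ Finset.range M \ Finset.range N, a i • e i‖ := by
    -- a projection
    have h2 := hU (Finset.range M \ Finset.range N) a (fun n => if n ∈ s then 1 else -1)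
      (fun n => by by_cases h : n ∈ s <;> simp [h])
    have h3 : ∑ i ∈ s \ Finset.range N, a i • e i = (1 / 2 : ℝ) •
        (∑ i ∈ Finset.range M \ Finset.range N, a i • e i +
          ∑ i ∈ Finset.range M \ Finset.range N, ((if i ∈ s then 1 else -1) * a i) • e i) := by
      rw [← Finset.sum_add_distrib, Finset.smul_sum]
      have h4 : s \ Finset.range N ⊆ Finset.range M \ Finset.range N :=
        Finset.sdiff_subset_sdiff hsM le_rfl
      rw [← Finset.sum_subset h4 (f := fun i => (1 / 2 : ℝ) • (a i • e i +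
        ((if i ∈ s then 1 else -1) * a i) • e i))]
      · refine Finset.sum_congr rfl fun i hi => ?_
        have : i ∈ s := (Finset.mem_sdiff.1 hi).1
        simp only [this, if_true, one_mul]
        module
      · intro i hi hi'
        have : i ∉ s := fun h => hi' (Finset.mem_sdiff.2 ⟨h, (Finset.mem_sdiff.1 hi).2⟩)
        simp only [this, if_false]
        module
    rw [h3, norm_smul, Real.norm_eq_abs, abs_of_pos (by norm_num : (0 : ℝ) < 1 / 2)]
    have := norm_add_le (∑ i ∈ Finset.range M \ Finset.range N, a i • e i)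
      (∑ i ∈ Finset.range M \ Finset.range N, ((if i ∈ s then 1 else -1) * a i) • e i)
    linarith
  have h2 : ∑ i ∈ Finset.range M \ Finset.range N, a i • e i =
      ∑ i ∈ Finset.range M, a i • e i - ∑ i ∈ Finset.range N, a i • e i := by
    rw [Finset.sum_sdiff_eq_sub (Finset.range_subset_range.2 (le_max_left _ _))]
  have h3 : ‖∑ i ∈ Finset.range M \ Finset.range N, a i • e i‖ < ε / 2 := by
    rw [h2, ← dist_eq_norm]
    exact hN₃ M ((le_max_right _ _).trans (le_max_left _ _)) N (le_max_right _ _)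
  have h4 : ∑ i ∈ s, a i • e i = ∑ i ∈ s \ Finset.range N, a i • e i +
      ∑ i ∈ Finset.range N, a i • e i := (Finset.sum_sdiff hs').symm
  rw [h4, dist_eq_norm]
  have h5 : ∑ i ∈ s \ Finset.range N, a i • e i + ∑ i ∈ Finset.range N, a i • e i - x =
      ∑ i ∈ s \ Finset.range N, a i • e i + (∑ i ∈ Finset.range N, a i • e i - x) := by abel
  rw [h5]
  have h6 : ‖∑ i ∈ Finset.range N, a i • e i - x‖ < ε / 2 := by
    rw [← dist_eq_norm]; exact hN₂ N (le_max_left _ _)
  calc _ ≤ ‖∑ i ∈ s \ Finset.range N, a i • e i‖ + ‖∑ i ∈ Finset.range N, a i • e i - x‖ :=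
        norm_add_le _ _
    _ < ε / 2 + ε / 2 := by linarith
    _ = ε := by ring

theorem exists_unique_hasSum (hU : SignInv e)
    (h : ∀ x : X, ∃! a : ℕ → ℝ, Tendsto (fun n => ∑ i ∈ Finset.range n, a i • e i) atTop (𝓝 x)) :
    ∀ x : X, ∃! a : ℕ → ℝ, HasSum (fun n => a n • e n) x := by
  intro x
  obtain ⟨a, ha, hau⟩ := h x
  exact ⟨a, hasSum_of_tendsto hU ha, fun b hb => hau b hb.tendsto_sum_nat⟩

theorem norm_T_le_gen (hU : SignInv e) {c d : ℕ →₀ ℝ} (h : ∀ n, |d n| = |c n| ∨ d n = 0) :
    ‖T e d‖ ≤ ‖T e c‖ := by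
  classical
  let c' : ℕ →₀ ℝ := Finsupp.onFinset c.support (fun n => if d n = 0 then c n else d n) (by
    intro n hn
    rw [Finsupp.mem_support_iff]
    intro h0
    rcases h n with h1 | h1
    · rw [h0, abs_zero] at h1
      have := abs_eq_zero.1 h1
      simp [this, h0] at hn
    · simp [h1, h0] at hn)
  have hc' : ∀ n, c' n = if d n = 0 then c n else d n := fun n => rfl
  have h1 : ‖T e c'‖ = ‖T e c‖ := by
    apply norm_T_eq_of_abs_eq hU
    intro n
    rw [hc']
    split_ifs with h2
    · rfl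
    · exact (h n).resolve_right h2
  rw [← h1]
  apply norm_T_le_of_proj hU
  intro n
  rw [hc']
  split_ifs with h2
  · exact Or.inr h2
  · exact Or.inl rfl

/-- The relevant consequence of the super alternative Daugavet property. -/
def SAD (X : Type u) [NormedAddCommGroup X] [NormedSpace ℝ X] : Prop :=
  ∀ x : X, ‖x‖ = 1 → ∀ W : Set (WeakSpace ℝ X), IsOpen W →
    (W ∩ (toWeakSpace ℝ X) '' Metric.closedBall (0 : X) 1).Nonempty → ∀ ε : ℝ, 0 < ε →
      ∃ y : X, ‖y‖ ≤ 1 ∧ toWeakSpace ℝ X y ∈ W ∧ (2 - ε < ‖x + y‖ ∨ 2 - ε < ‖x - y‖)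

section
variable (hB : ∀ x : X, ∃! a : ℕ → ℝ, HasSum (fun n => a n • e n) x) (hU : SignInv e)
include hB hU

theorem isOpen_coord (N : ℕ) (c : ℕ → ℝ) (η : ℝ) :
    IsOpen {y : WeakSpace ℝ X | ∀ n < N, |A hB ((toWeakSpace ℝ X).symm y) n - c n| < η} := by
  have h1 : {y : WeakSpace ℝ X | ∀ n < N, |A hB ((toWeakSpace ℝ X).symm y) n - c n| < η} =
      ⋂ n : Fin N, {y : WeakSpace ℝ X | |A hB ((toWeakSpace ℝ X).symm y) n - c n| < η} := by
    ext y
    simp only [Set.mem_ofPred_eq, Set.mem_iInter]
    exact ⟨fun h n => h n n.2, fun h n hn => h ⟨n, hn⟩⟩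
  rw [h1]
  refine isOpen_iInter_of_finite fun n => ?_
  have hc : Continuous fun y : WeakSpace ℝ X => A hB ((toWeakSpace ℝ X).symm y) n := by
    have := WeakBilin.eval_continuous (topDualPairing ℝ X).flip (coord hB hU (n : ℕ))
    exact this
  exact isOpen_lt (continuous_abs.comp (hc.sub continuous_const)) continuous_const

/-- The splitting property. -/
theorem split (hS : SAD X) {a b : ℕ →₀ ℝ} (hab : ∀ n, a n = 0 ∨ b n = 0)
    (h1 : ‖T e (a + b)‖ = 1) : 1 ≤ ‖T e a‖ ∨ 1 ≤ ‖T e b‖ := by
  classical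
  by_contra hcon
  push Not at hcon
  obtain ⟨ha, hb⟩ := hcon
  have hab' : ‖T e (a - b)‖ = 1 := by
    rw [← h1]
    apply norm_T_eq_of_abs_eq hU
    intro n
    rcases hab n with h | h <;> simp [h]
  -- the gap
  obtain ⟨ε, hε, hεa, hεb⟩ : ∃ ε > 0, ‖T e a‖ ≤ 1 - 4 * ε ∧ ‖T e b‖ ≤ 1 - 4 * ε := by
    refine ⟨min ((1 - ‖T e a‖) / 4) ((1 - ‖T e b‖) / 4), lt_min (by linarith) (by linarith), ?_, ?_⟩
    · have := min_le_left ((1 - ‖T e a‖) / 4) ((1 - ‖T e b‖) / 4); linarith
    · have := min_le_right ((1 - ‖T e a‖) / 4) ((1 - ‖T e b‖) / 4); linarith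
  set N := max (a.support.sup id + 1) (b.support.sup id + 1) with hN
  have haN : ∀ n, N ≤ n → a n = 0 := by
    intro n hn
    by_contra h
    have h2 : n ≤ a.support.sup id := Finset.le_sup (f := id) (Finsupp.mem_support_iff.2 h)
    have h3 := le_max_left (a.support.sup id + 1) (b.support.sup id + 1)
    omega
  have hbN : ∀ n, N ≤ n → b n = 0 := by
    intro n hn
    by_contra h
    have h2 : n ≤ b.support.sup id := Finset.le_sup (f := id) (Finsupp.mem_support_iff.2 h)
    have h3 := le_max_right (a.support.sup id + 1) (b.support.sup id + 1)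
    omega
  set E : ℝ := ∑ n ∈ Finset.range N, ‖e n‖ + 1 with hE
  have hE0 : 0 < E := by positivity
  set η : ℝ := ε / E with hη
  have hη0 : 0 < η := by positivity
  obtain ⟨y, hy1, hyW, hy2⟩ := hS (T e (a + b)) h1 _
    (isOpen_coord hB hU N (fun n => (a - b) n) η) (by
      refine ⟨toWeakSpace ℝ X (T e (a - b)), ?_, T e (a - b), ?_, rfl⟩
      · intro n _
        change |A hB (T e (a - b)) n - (a - b) n| < η
        rw [A_T]
        simpa using hη0
      · rw [Metric.mem_closedBall, dist_zero_right]; exact hab'.le) ε hε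
  have hyW' : ∀ n < N, |A hB y n - (a - b) n| < η := hyW
  set u := tr hB (Finset.range N) y with hu
  have habN : (a - b).support ⊆ Finset.range N := by
    intro n hn
    rw [Finset.mem_range]
    by_contra h
    rw [Finsupp.mem_support_iff, Finsupp.sub_apply, haN n (not_lt.1 h), hbN n (not_lt.1 h)] at hn
    simp at hn
  have hd : ‖T e (a - b) - T e u‖ ≤ ε := by
    rw [hu, T_tr, T_apply_of_subset e (a - b) _ habN, ← Finset.sum_sub_distrib]
    calc ‖∑ n ∈ Finset.range N, ((a - b) n • e n - A hB y n • e n)‖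
        ≤ ∑ n ∈ Finset.range N, ‖(a - b) n • e n - A hB y n • e n‖ := norm_sum_le _ _
      _ ≤ ∑ n ∈ Finset.range N, η * ‖e n‖ := by
          refine Finset.sum_le_sum fun n hn => ?_
          rw [← sub_smul, norm_smul, Real.norm_eq_abs, abs_sub_comm]
          exact mul_le_mul_of_nonneg_right (hyW' n (Finset.mem_range.1 hn)).le (norm_nonneg _)
      _ = η * ∑ n ∈ Finset.range N, ‖e n‖ := by rw [Finset.mul_sum]
      _ ≤ η * E := by
          refine mul_le_mul_of_nonneg_left ?_ (by positivity)
          rw [hE]; linarith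
      _ = ε := by rw [hη]; field_simp
  set t : X := y - T e u with ht
  -- truncated tails
  have hlim : Tendsto (fun M : ℕ => T e (tr hB (Finset.Ico N M) y)) atTop (𝓝 t) := by
    have h2 := (tendsto_T_tr hB y).comp tendsto_finset_range
    have h3 := h2.sub_const (T e u)
    refine h3.congr' ?_
    filter_upwards [eventually_ge_atTop N] with M hM
    simp only [Function.comp]
    rw [hu, T_tr, T_tr, T_tr, Finset.sum_Ico_eq_sub _ hM]
  have hab_t : ‖T e (a - b) + t‖ ≤ 1 + ε := by
    have h2 : T e (a - b) + t = y + (T e (a - b) - T e u) := by rw [ht]; abel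
    rw [h2]
    exact (norm_add_le _ _).trans (add_le_add hy1 hd)
  have htrz : ∀ M n, (tr hB (Finset.Ico N M) y) n ≠ 0 → a n = 0 ∧ b n = 0 := by
    intro M n hn
    rw [tr_apply] at hn
    have h2 : n ∈ Finset.Ico N M := by
      by_contra h; simp [h] at hn
    have h3 := (Finset.mem_Ico.1 h2).1
    exact ⟨haN n h3, hbN n h3⟩
  have hat : ‖T e a + t‖ ≤ 1 + ε := by
    refine le_trans ?_ hab_t
    refine le_of_tendsto_of_tendsto (hlim.const_add (T e a)).norm
      (hlim.const_add (T e (a - b))).norm (Eventually.of_forall fun M => ?_)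
    simp only [← map_add]
    apply norm_T_le_gen hU
    intro n
    by_cases h2 : (tr hB (Finset.Ico N M) y) n = 0
    · rcases hab n with h | h <;> simp [h, h2]
    · obtain ⟨h3, h4⟩ := htrz M n h2
      simp [h3, h4]
  have hbt : ‖T e b - t‖ ≤ 1 + ε := by
    refine le_trans ?_ hab_t
    refine le_of_tendsto_of_tendsto (tendsto_const_nhds.sub hlim).norm
      (hlim.const_add (T e (a - b))).norm (Eventually.of_forall fun M => ?_)
    simp only [← map_add, ← map_sub]
    apply norm_T_le_gen hU
    intro n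
    by_cases h2 : (tr hB (Finset.Ico N M) y) n = 0
    · rcases hab n with h | h <;> simp [h, h2]
    · obtain ⟨h3, h4⟩ := htrz M n h2
      simp [h3, h4]
  rcases hy2 with hy2 | hy2
  · have h2 : T e (a + b) + y = T e a + (T e a + t) - (T e (a - b) - T e u) := by
      rw [ht]; simp only [map_add, map_sub]; abel
    have h3 : ‖T e (a + b) + y‖ ≤ ‖T e a‖ + (1 + ε) + ε := by
      rw [h2]
      refine (norm_sub_le _ _).trans (add_le_add ?_ hd)
      exact (norm_add_le _ _).trans (add_le_add le_rfl hat)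
    linarith
  · have h2 : T e (a + b) - y = T e b + (T e b - t) + (T e (a - b) - T e u) := by
      rw [ht]; simp only [map_add, map_sub]; abel
    have h3 : ‖T e (a + b) - y‖ ≤ ‖T e b‖ + (1 + ε) + ε := by
      rw [h2]
      refine (norm_add_le _ _).trans (add_le_add ?_ hd)
      exact (norm_add_le _ _).trans (add_le_add le_rfl hbt)
    linarith

/-- Norm one vectors have a coordinate of norm one. -/
theorem exists_coord (hS : SAD X) (c : ℕ →₀ ℝ) (hc : ‖T e c‖ = 1) :
    ∃ n, 1 ≤ |c n| * ‖e n‖ := by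
  classical
  have key : ∀ k : ℕ, ∀ c : ℕ →₀ ℝ, c.support.card = k → ‖T e c‖ = 1 →
      ∃ n, 1 ≤ |c n| * ‖e n‖ := by
    intro k
    induction k using Nat.strong_induction_on with
    | _ k ih =>
      intro c hk hc
      have hne : c.support.Nonempty := by
        rw [Finset.nonempty_iff_ne_empty]
        intro h
        have : c = 0 := Finsupp.support_eq_empty.1 h
        rw [this, map_zero, norm_zero] at hc
        norm_num at hc
      obtain ⟨m, hm⟩ := hne
      have hadd : Finsupp.single m (c m) + c.erase m = c := Finsupp.single_add_erase m c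
      have hdis : ∀ n, Finsupp.single m (c m) n = 0 ∨ c.erase m n = 0 := by
        intro n
        by_cases h : n = m
        · right; rw [h]; simp
        · left; rw [Finsupp.single_apply, if_neg (Ne.symm h)]
      rcases split hB hU hS hdis (by rw [hadd]; exact hc) with h | h
      · refine ⟨m, ?_⟩
        have h2 : T e (Finsupp.single m (c m)) = c m • e m := by simp [T]
        rw [h2, norm_smul, Real.norm_eq_abs] at h
        exact h
      · have h2 : ‖T e (c.erase m)‖ ≤ 1 := by
          rw [← hc]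
          apply norm_T_le_of_proj hU
          intro n
          by_cases h : n = m
          · right; rw [h]; simp
          · left; rw [Finsupp.erase_ne h]
        have h3 : (c.erase m).support.card < k := by
          rw [Finsupp.support_erase, ← hk]
          exact Finset.card_erase_lt_of_mem hm
        obtain ⟨n, hn⟩ := ih _ h3 _ rfl (le_antisymm h2 h)
        refine ⟨n, hn.trans ?_⟩
        by_cases h : n = m
        · rw [h] at hn ⊢; simp at hn; linarith
        · rw [Finsupp.erase_ne h]
  exact key _ c rfl hc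

theorem not_SAD : ¬ SAD X := by
  classical
  intro hS
  have he0 : 0 < ‖e 0‖ := norm_pos_iff.2 (e_ne_zero hB 0)
  set x : X := T e (Finsupp.single 0 (‖e 0‖⁻¹)) with hx
  have hx1 : ‖x‖ = 1 := by
    have : x = ‖e 0‖⁻¹ • e 0 := by simp [hx, T]
    rw [this, norm_smul, norm_inv, norm_norm]
    field_simp
  obtain ⟨y, hy1, hyW, hy2⟩ := hS x hx1 _
    (isOpen_coord hB hU 1 (fun _ => 0) (1 / (4 * ‖e 0‖))) (by
      refine ⟨toWeakSpace ℝ X (T e 0), ?_, T e 0, by simp, rfl⟩
      intro n _
      change |A hB (T e 0) n - 0| < _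
      rw [A_T]
      simp only [Finsupp.coe_zero, Pi.zero_apply, sub_zero, abs_zero]
      positivity) (1 / 4) (by norm_num)
  have hy0 : |A hB y 0| * ‖e 0‖ ≤ 1 / 4 := by
    have h1 : |A hB y 0 - 0| < 1 / (4 * ‖e 0‖) := hyW 0 (by norm_num)
    rw [sub_zero, lt_div_iff₀ (by positivity)] at h1
    linarith
  -- the norm of `x ± y` is at most `3 / 2`
  have hbound : ∀ z : X, (∀ n, |A hB z n| * ‖e n‖ ≤ 5 / 4) → ‖z‖ ≤ 5 / 4 := by
    intro z hz
    by_contra hcon
    have hcon' : 5 / 4 < ‖z‖ := not_le.1 hcon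
    have hev : ∀ᶠ s : Finset ℕ in atTop, 5 / 4 < ‖T e (tr hB s z)‖ :=
      (tendsto_T_tr hB z).norm.eventually_const_lt hcon'
    obtain ⟨s, hs⟩ := hev.exists
    set r := ‖T e (tr hB s z)‖ with hr
    have hr0 : 0 < r := by linarith
    obtain ⟨n, hn⟩ := exists_coord hB hU hS (r⁻¹ • tr hB s z) (by
      rw [map_smul, norm_smul, norm_inv, Real.norm_eq_abs, abs_of_pos hr0, ← hr]
      field_simp)
    rw [Finsupp.smul_apply, smul_eq_mul, abs_mul, abs_inv, abs_of_pos hr0, mul_assoc,
      inv_mul_eq_div, le_div_iff₀ hr0, one_mul] at hn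
    have h2 : |(tr hB s z) n| ≤ |A hB z n| := by
      rw [tr_apply]
      split_ifs
      · exact le_rfl
      · simp
    have h3 := mul_le_mul_of_nonneg_right h2 (norm_nonneg (e n))
    have h4 := hz n
    linarith
  have hAx : ∀ n, A hB x n = Finsupp.single 0 (‖e 0‖⁻¹) n := by
    intro n; rw [hx, A_T]
  have hcoord : ∀ θ : ℝ, |θ| = 1 → ‖x + θ • y‖ ≤ 5 / 4 := by
    intro θ hθ
    apply hbound
    intro n
    rw [A_add, A_smul, Pi.add_apply, Pi.smul_apply, smul_eq_mul, hAx]
    by_cases hn : n = 0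
    · rw [hn, Finsupp.single_eq_same]
      have h1 : |‖e 0‖⁻¹ + θ * A hB y 0| ≤ ‖e 0‖⁻¹ + |A hB y 0| := by
        refine (abs_add_le _ _).trans ?_
        rw [abs_mul, hθ, one_mul, abs_of_pos (by positivity)]
      have h2 := mul_le_mul_of_nonneg_right h1 he0.le
      rw [add_mul, inv_mul_cancel₀ he0.ne'] at h2
      linarith
    · rw [Finsupp.single_apply, if_neg (fun h => hn h.symm), zero_add, abs_mul, hθ, one_mul]
      have h1 := abs_A_mul_le hB hU y n
      linarith
  rcases hy2 with h | h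
  · have h1 := hcoord 1 (by simp)
    rw [one_smul] at h1
    linarith
  · have h1 := hcoord (-1) (by simp)
    rw [neg_smul, one_smul, ← sub_eq_add_neg] at h1
    linarith

end

end Pool.Agent.Y281.SADP
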