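import Mathlib

set_option autoImplicit false

/-!
# Spaces with a 1-unconditional basis: basic tools
-/

namespace Pool.Agent.Y281.UB

open Filter Topology

variable {X : Type*} [NormedAddCommGroup X] [NormedSpace ℝ X]

/-- The vector with finitely many coefficients `c`. -/
noncomputable def T (e : ℕ → X) : (ℕ →₀ ℝ) →ₗ[ℝ] X := Finsupp.linearCombination ℝ e

theorem T_apply (e : ℕ → X) (c : ℕ →₀ ℝ) : T e c = ∑ n ∈ c.support, c n • e n := by
  simp [T, Finsupp.linearCombination_apply, Finsupp.sum]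

theorem T_apply_of_subset (e : ℕ → X) (c : ℕ →₀ ℝ) (s : Finset ℕ) (h : c.support ⊆ s) :
    T e c = ∑ n ∈ s, c n • e n := by
  rw [T_apply]
  refine Finset.sum_subset h fun n _ hn => ?_
  have : c n = 0 := by simpa using hn
  rw [this, zero_smul]

/-- The hypothesis that sign changes do not increase norms. -/
def SignInv (e : ℕ → X) : Prop :=
  ∀ (s : Finset ℕ) (a ε : ℕ → ℝ), (∀ n, ε n = 1 ∨ ε n = -1) →
    ‖∑ n ∈ s, (ε n * a n) • e n‖ ≤ ‖∑ n ∈ s, a n • e n‖

section
variable {e : ℕ → X} (hU : SignInv e)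
include hU

theorem norm_T_le_of_abs_eq {c d : ℕ →₀ ℝ} (h : ∀ n, |d n| = |c n|) : ‖T e d‖ ≤ ‖T e c‖ := by
  classical
  have h1 : d.support ⊆ c.support := by
    intro n hn
    rw [Finsupp.mem_support_iff] at hn ⊢
    intro h0
    apply hn
    have := h n
    rw [h0, abs_zero] at this
    exact abs_eq_zero.1 this
  rw [T_apply_of_subset e d c.support h1, T_apply e c]
  have h2 := hU c.support (fun n => c n) (fun n => if d n = c n then 1 else -1)
    (fun n => by by_cases h : d n = c n <;> simp [h])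
  refine le_trans (le_of_eq ?_) h2
  congr 1
  refine Finset.sum_congr rfl fun n _ => ?_
  congr 1
  rcases abs_eq_abs.1 (h n) with h3 | h3
  · simp [h3]
  · by_cases h4 : d n = c n
    · simp [h4]
    · simp [h4, h3]

theorem norm_T_eq_of_abs_eq {c d : ℕ →₀ ℝ} (h : ∀ n, |d n| = |c n|) : ‖T e d‖ = ‖T e c‖ :=
  le_antisymm (norm_T_le_of_abs_eq hU h) (norm_T_le_of_abs_eq hU fun n => (h n).symm)

theorem norm_T_le_of_proj {c d : ℕ →₀ ℝ} (h : ∀ n, d n = c n ∨ d n = 0) :
    ‖T e d‖ ≤ ‖T e c‖ := by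
  have h1 : T e d = (1 / 2 : ℝ) • (T e c + T e ((2 : ℝ) • d - c)) := by
    rw [map_sub, map_smul]
    module
  have h2 : ‖T e ((2 : ℝ) • d - c)‖ = ‖T e c‖ := by
    apply norm_T_eq_of_abs_eq hU
    intro n
    rcases h n with h | h
    · simp only [Finsupp.coe_sub, Finsupp.coe_smul, Pi.sub_apply, Pi.smul_apply, smul_eq_mul, h]
      congr 1; ring
    · simp [h]
  rw [h1, norm_smul]
  have h3 := norm_add_le (T e c) (T e ((2 : ℝ) • d - c))
  rw [h2] at h3
  rw [Real.norm_eq_abs, abs_of_pos (by norm_num : (0 : ℝ) < 1 / 2)]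
  linarith

end

section coord

variable {e : ℕ → X}
  (hB : ∀ x : X, ∃! a : ℕ → ℝ, HasSum (fun n => a n • e n) x)

/-- The coefficients of `x`. -/
noncomputable def A (hB : ∀ x : X, ∃! a : ℕ → ℝ, HasSum (fun n => a n • e n) x) (x : X) :
    ℕ → ℝ := (hB x).choose

theorem A_hasSum (x : X) : HasSum (fun n => A hB x n • e n) x := (hB x).choose_spec.1

theorem A_unique {x : X} {a : ℕ → ℝ} (h : HasSum (fun n => a n • e n) x) : a = A hB x :=
  (hB x).choose_spec.2 a h

theorem A_add (x y : X) : A hB (x + y) = A hB x + A hB y := by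
  refine (A_unique hB ?_).symm
  have h := (A_hasSum hB x).add (A_hasSum hB y)
  have h2 : (fun n => (A hB x + A hB y) n • e n) =
      fun n => A hB x n • e n + A hB y n • e n := by
    funext n; simp [add_smul]
  rw [h2]; exact h

theorem A_smul (r : ℝ) (x : X) : A hB (r • x) = r • A hB x := by
  refine (A_unique hB ?_).symm
  have h := (A_hasSum hB x).const_smul r
  have h2 : (fun n => (r • A hB x) n • e n) = fun n => r • (A hB x n • e n) := by
    funext n; simp [mul_smul]
  rw [h2]; exact h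

theorem A_T (c : ℕ →₀ ℝ) : A hB (T e c) = c := by
  refine (A_unique hB ?_).symm
  rw [T_apply]
  refine hasSum_sum_of_ne_finset_zero fun n hn => ?_
  have : c n = 0 := by simpa using hn
  rw [this, zero_smul]

include hB in
theorem e_ne_zero (n : ℕ) : e n ≠ 0 := by
  intro h
  have h1 : A hB (T e (Finsupp.single n 1)) = A hB (T e 0) := by
    congr 1
    simp [T, h]
  rw [A_T, A_T] at h1
  have := congrFun h1 n
  simp at this

/-- The truncation of the coefficients of `x` to a finite set. -/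
noncomputable def tr (hB : ∀ x : X, ∃! a : ℕ → ℝ, HasSum (fun n => a n • e n) x)
    (s : Finset ℕ) (x : X) : ℕ →₀ ℝ :=
  Finsupp.onFinset s (fun n => if n ∈ s then A hB x n else 0) (by
    intro n hn
    by_contra h
    simp [h] at hn)

theorem tr_apply (s : Finset ℕ) (x : X) (n : ℕ) :
    tr hB s x n = if n ∈ s then A hB x n else 0 := rfl

theorem T_tr (s : Finset ℕ) (x : X) : T e (tr hB s x) = ∑ n ∈ s, A hB x n • e n := by
  rw [T_apply_of_subset e _ s]
  · exact Finset.sum_congr rfl fun n hn => by rw [tr_apply, if_pos hn]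
  · exact Finsupp.support_onFinset_subset

theorem tendsto_T_tr (x : X) : Tendsto (fun s : Finset ℕ => T e (tr hB s x)) atTop (𝓝 x) := by
  have h := A_hasSum hB x
  rw [HasSum] at h
  simpa [T_tr] using h

variable (hU : SignInv e)
include hU

theorem norm_T_tr_le (s : Finset ℕ) (x : X) : ‖T e (tr hB s x)‖ ≤ ‖x‖ := by
  classical
  refine ge_of_tendsto (tendsto_T_tr hB x).norm ?_
  filter_upwards [eventually_ge_atTop s] with t ht
  apply norm_T_le_of_proj hU
  intro n
  by_cases hn : n ∈ s
  · left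
    rw [tr_apply, tr_apply, if_pos hn, if_pos (ht hn)]
  · right
    rw [tr_apply, if_neg hn]

theorem abs_A_mul_le (x : X) (n : ℕ) : |A hB x n| * ‖e n‖ ≤ ‖x‖ := by
  have h := norm_T_tr_le hB hU {n} x
  rw [T_tr, Finset.sum_singleton, norm_smul] at h
  exact h

/-- The coordinate functionals. -/
noncomputable def coord (n : ℕ) : X →L[ℝ] ℝ :=
  LinearMap.mkContinuous
    { toFun := fun x => A hB x n
      map_add' := fun x y => by rw [A_add]; rfl
      map_smul' := fun r x => by rw [A_smul]; rfl } (‖e n‖⁻¹) (fun x => by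
        have h := abs_A_mul_le hB hU x n
        have h0 : 0 < ‖e n‖ := norm_pos_iff.2 (e_ne_zero hB n)
        rw [Real.norm_eq_abs]
        change |A hB x n| ≤ _
        rw [inv_mul_eq_div, le_div_iff₀ h0]
        exact h)

theorem coord_apply (n : ℕ) (x : X) : coord hB hU n x = A hB x n := rfl

end coord

end Pool.Agent.Y281.UB
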